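import Pool.Agent.Q184.NB.Core
import Pool.Agent.Y506.PV.Fin
import Pool.Agent.Y506.PV.Ker
import Pool.Agent.Y506.PV.Mom

/-!
# Convex bodies dominated by the law of a linear image of a random vector with concentration
-/

set_option autoImplicit false

namespace Pool.Agent.Q184.NB

open MeasureTheory Set Filter Topology
open scoped ENNReal InnerProductSpace
open Pool.Agent.W695.KH (Eu EU EV VV Sm Pot Uu)
open Pool.Agent.Y506.RG (EW VW Star LC1 GD Adm VW_shift EW_nonneg EW_mono EW_const EW_add EW_const_mul)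
open Pool.Agent.Y506.PV

/-- weights all of whose linear images have concentration, with a scale depending on the level
only -/
structure Good (κ : ℝ → ℝ) {m : ℕ} (w : Eu (Fin m) → ℝ) : Prop where
  adm : Adm w
  lc : LCn w
  cc : ∀ δ : ℝ, 0 < δ → CcW (κ δ) δ w

/-- products of few ridge functions -/
theorem good_ridge (q : ℕ) : ∃ κ : ℝ → ℝ, (∀ δ, 0 < δ → 0 < κ δ) ∧
    ∀ (m N : ℕ) (v : Fin N → Eu (Fin m)) (h : Fin N → ℝ → ℝ), 1 ≤ m → N ≤ m + q →
    (∀ i s, 0 ≤ h i s) → (∀ i x y t, 0 < t → t < 1 →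
      h i x ^ (1 - t) * h i y ^ t ≤ h i ((1 - t) * x + t * y)) →
    0 < ∫ x : Eu (Fin m), ∏ i, h i ⟪v i, x⟫_ℝ → Good κ fun x : Eu (Fin m) => ∏ i, h i ⟪v i, x⟫_ℝ := by
  have hex : ∀ δ : ℝ, ∃ κ : ℝ, 0 < δ → 0 < κ ∧
    ∀ (n N : ℕ), 1 ≤ n → N ≤ n + q → ∀ (ell : Eu (Fin n) →ₗ[ℝ] Eu (Fin N)),
    (∀ x, ell x = 0 → x = 0) → ∀ h : Fin N → ℝ → ℝ, (∀ i, LC1 (h i)) →
    Integrable (fun x => (1 + ‖x‖ ^ 2) * ∏ i, h i (ell x i)) →
    0 < ∫ x, ∏ i, h i (ell x i) → CcW κ δ fun x => ∏ i, h i (ell x i) := by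
    intro δ
    by_cases hδ : 0 < δ
    · obtain ⟨κ, h1, h2⟩ := ccl q δ hδ
      exact ⟨κ, fun _ => ⟨h1, h2⟩⟩
    · exact ⟨0, fun h => absurd h hδ⟩
  choose κ hκ using hex
  refine ⟨κ, fun δ hδ => (hκ δ hδ).1, ?_⟩
  intro m N v h hm hN hnn0 hlc hpos
  have hme : ∀ i, Measurable (h i) := fun i => meas_one (hnn0 i) (hlc i)
  have hl1 : ∀ i, LC1 (h i) := fun i => ⟨hnn0 i, hme i, hlc i⟩
  have hnn : ∀ x : Eu (Fin m), 0 ≤ ∏ i, h i ⟪v i, x⟫_ℝ :=
    fun x => Finset.prod_nonneg fun i _ => hnn0 i _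
  have hmr : Measurable fun x : Eu (Fin m) => ∏ i, h i ⟪v i, x⟫_ℝ := by
    refine Finset.measurable_prod _ fun i _ => ?_
    have : Measurable fun x : Eu (Fin m) => ⟪v i, x⟫_ℝ := by fun_prop
    exact (hme i).comp this
  have hln : LCn fun x : Eu (Fin m) => ∏ i, h i ⟪v i, x⟫_ℝ := lcn_ridge v h hnn0 hlc
  have hint : Integrable (fun x : Eu (Fin m) => (1 + ‖x‖ ^ 2) * ∏ i, h i ⟪v i, x⟫_ℝ) :=
    int_moment hnn hmr hln hpos
  have hA : Adm (fun x : Eu (Fin m) => ∏ i, h i ⟪v i, x⟫_ℝ) := ⟨hnn, hint, hpos, hmr⟩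
  have hker : ∀ z : Eu (Fin m), (∀ i, ⟪v i, z⟫_ℝ = 0) → z = 0 := by
    intro z hz
    refine ker_of hA z fun x => ?_
    refine Finset.prod_congr rfl fun i _ => ?_
    rw [inner_add_right, hz i, add_zero]
  refine ⟨hA, hln, fun δ hδ => ?_⟩
  exact (hκ δ hδ).2 m N hm hN (ellv v) (fun x hx => hker x fun i => by
    rw [← ellv_apply, hx]
    rfl) h hl1 hint hpos

/-- images of base bodies -/
theorem good_images (q r B : ℕ) (p : ℝ) (hp : 1 ≤ p) : ∃ κ : ℝ → ℝ, (∀ δ, 0 < δ → 0 < κ δ) ∧
    ∀ (n m : ℕ) (K : Set (Eu (Fin m))) (A : Eu (Fin m) →ₗ[ℝ] Eu (Fin n)),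
    1 ≤ n → m ≤ n + r → Base q B p K → Function.Surjective A → IsCompact (A '' K) ∧
    Convex ℝ (A '' K) ∧ (interior (A '' K)).Nonempty ∧ Good κ (ind (A '' K)) := by
  have hex : ∀ δ : ℝ, ∃ κ : ℝ, 0 < δ → 0 < κ ∧
    ∀ (n m : ℕ) (K : Set (Eu (Fin m))) (A : Eu (Fin m) →ₗ[ℝ] Eu (Fin n)),
    1 ≤ n → m ≤ n + r → Base q B p K → Function.Surjective A → CcW κ δ (ind (A '' K)) := by
    intro δ
    by_cases hδ : 0 < δ
    · obtain ⟨c, hc, H⟩ := min_const' (fun d c => ∀ (n : ℕ) (K : Set (Eu (Fin (n + d))))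
          (A : Eu (Fin (n + d)) →ₗ[ℝ] Eu (Fin n)), 1 ≤ n → Base q B p K → Function.Surjective A →
          CcW c δ (ind (A '' K)))
        (fun d => by
          obtain ⟨δ0, c0, hδ0, hc0, H0⟩ := cc_img Pool.Agent.Y941.PV.prj denR Pool.Agent.Y388.PV.cmp
            Pool.Agent.Y388.PV.fac d δ hδ
          obtain ⟨κ, hκ, H1⟩ := cc_base ccl Pool.Agent.Y363.PV.phis radR Pool.Agent.Y211.PV.iso q B p
            hp δ0 hδ0
          refine ⟨c0 * κ, by positivity, fun n K A hn hK hA => ?_⟩
          have hcp := hK.compact Pool.Agent.Y363.PV.phis hp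
          have hcv := hK.convex Pool.Agent.Y363.PV.phis hp
          exact H0 n κ K A hκ hcp hcv hK.2.1 hA (H1 (n + d) K (by omega) hK))
        (fun d c c' hcc h n K A hn hK hA => CcW.mono hcc (h n K A hn hK hA)) r
      refine ⟨c, fun _ => ⟨hc, fun n m K A hn hm hK hA => ?_⟩⟩
      have hnm : n ≤ m := by
        have := LinearMap.finrank_le_finrank_of_surjective (f := A) hA
        simpa using this
      obtain ⟨d, rfl⟩ : ∃ d, m = n + d := ⟨m - n, by omega⟩
      exact H d (by omega) n K A hn hK hA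
    · exact ⟨0, fun h => absurd h hδ⟩
  choose κ hκ using hex
  refine ⟨κ, fun δ hδ => (hκ δ hδ).1, ?_⟩
  intro n m K A hn hm hK hA
  have hcp := hK.compact Pool.Agent.Y363.PV.phis hp
  have hcv := hK.convex Pool.Agent.Y363.PV.phis hp
  have hAc : Continuous A := A.continuous_of_finiteDimensional
  have h1 := hcp.image hAc
  have h2 := hcv.linear_image A
  have h3 := int_image hK.2.1 A hA
  refine ⟨h1, h2, h3, adm_ind _ h1.measurableSet h1.isBounded (vol_pos h3), lcn_ind h2,
    fun δ hδ => (hκ δ hδ).2 n m K A hn hm hK hA⟩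

/-- `P` is dominated by the measure `ν` (up to the factor `a` and up to a set of volume at most
`|P| / 200`) -/
def DomS {n : ℕ} (a : ℝ) (P : Set (Eu (Fin n))) (ν : Measure (Eu (Fin n))) : Prop :=
  ∃ E : Set (Eu (Fin n)), MeasurableSet E ∧ volume E ≤ volume P / 200 ∧
    volume.restrict (P \ E) ≤ ENNReal.ofReal a • ν

/-- **convex bodies dominated by the law of `T X`** -/
theorem dom_star (κ : ℝ → ℝ) (hκ : ∀ δ, 0 < δ → 0 < κ δ) (M : ℝ) (hM : 1 ≤ M) : ∃ c : ℝ, 0 < c ∧
    ∀ (m n : ℕ) (w : Eu (Fin m) → ℝ) (T : Eu (Fin m) →ₗ[ℝ] Eu (Fin n)) (P : Set (Eu (Fin n))),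
    Good κ w → Function.Surjective T → IsCompact P → Convex ℝ P → (interior P).Nonempty →
    DomS (M * (volume P).toReal / ∫ x, w x) P
      (Measure.map T (volume.withDensity fun x => ENNReal.ofReal (w x))) → Star c (ind P) := by
  have hM0 : 0 < M := by linarith
  obtain ⟨v, hv⟩ : ∃ v : ℝ, v = 199 / 200 / M := ⟨_, rfl⟩
  have hv0 : 0 < v := by rw [hv]; positivity
  have hv1 : v ≤ 1 := by
    rw [hv, div_le_one hM0]
    linarith
  have hk0 : 0 < κ (v * (1 / 50)) := hκ _ (by positivity)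
  have hC := CC_pos hv1
  obtain ⟨c, hc, H⟩ := stb Pool.Agent.Y211.PV.iso
    (κ (v * (1 / 50)) / Real.sqrt (CC v) * Real.sqrt (1 - 1 / 200)) (by
      have : 0 < Real.sqrt (1 - 1 / 200 : ℝ) := Real.sqrt_pos.2 (by norm_num)
      have h2 := Real.sqrt_pos.2 hC
      positivity)
  refine ⟨c, hc, ?_⟩
  intro m n w T P hw hT hPc hPv hPi hdom
  obtain ⟨E, hE, hEv, hle⟩ := hdom
  have hnm : n ≤ m := by
    have := LinearMap.finrank_le_finrank_of_surjective (f := T) hT
    simpa using this
  have hW := hw.adm.pos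
  obtain ⟨W, hWd⟩ : ∃ W : ℝ, W = ∫ x, w x := ⟨_, rfl⟩
  rw [← hWd] at hle hW
  have hVp : 0 < volume P := vol_pos hPi
  have hVf : volume P ≠ ⊤ := hPc.measure_lt_top.ne
  obtain ⟨V, hVd⟩ : ∃ V : ℝ, V = (volume P).toReal := ⟨_, rfl⟩
  have hV : 0 < V := by rw [hVd]; exact ENNReal.toReal_pos hVp.ne' hVf
  rw [← hVd] at hle
  obtain ⟨a, had⟩ : ∃ a : ℝ, a = M * V / W := ⟨_, rfl⟩
  have ha : 0 < a := by rw [had]; positivity
  rw [← had] at hle
  obtain ⟨D, hD⟩ : ∃ D : Set (Eu (Fin n)), D = P \ E := ⟨_, rfl⟩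
  have hDm : MeasurableSet D := by rw [hD]; exact hPc.measurableSet.diff hE
  have hDP : D ⊆ P := by rw [hD]; exact sdiff_subset
  have hDf : volume D ≠ ⊤ := (measure_mono hDP).trans_lt hPc.measure_lt_top |>.ne
  rw [← hD] at hle
  -- volumes
  have hDv : 199 / 200 * V ≤ (volume D).toReal := by
    have h1 : volume P ≤ volume D + volume E := by
      refine (measure_mono ?_).trans (measure_union_le _ _)
      intro x hx
      by_cases hxE : x ∈ E
      · exact Or.inr hxE
      · left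
        rw [hD]
        exact ⟨hx, hxE⟩
    have hEf : volume E ≠ ⊤ := (hEv.trans_lt (ENNReal.div_lt_top hVf (by norm_num))).ne
    have h2 : (volume E).toReal ≤ V / 200 := by
      have := ENNReal.toReal_mono (ENNReal.div_lt_top hVf (by norm_num)).ne hEv
      rw [ENNReal.toReal_div, ← hVd] at this
      simpa using this
    have h3 := ENNReal.toReal_mono (ENNReal.add_ne_top.2 ⟨hDf, hEf⟩) h1
    rw [ENNReal.toReal_add hDf hEf, ← hVd] at h3
    linarith
  have hD0 : 0 < (volume D).toReal := by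
    refine lt_of_lt_of_le ?_ hDv
    positivity
  have hDp : 0 < volume D := (ENNReal.toReal_pos_iff.1 hD0).1
  have hwm : Measurable fun x => ENNReal.ofReal (w x) := ENNReal.measurable_ofReal.comp hw.adm.meas
  have hTm : Measurable T := T.continuous_of_finiteDimensional.measurable
  -- the law
  obtain ⟨μ, hμ⟩ : ∃ μ : Measure (Eu (Fin m)), μ = volume.withDensity fun x => ENNReal.ofReal (w x) :=
    ⟨_, rfl⟩
  have hμf : IsFiniteMeasure μ := by
    refine ⟨?_⟩
    rw [hμ, withDensity_apply _ MeasurableSet.univ, Measure.restrict_univ,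
      ← ofReal_integral_eq_lintegral_ofReal hw.adm.one (Eventually.of_forall hw.adm.nonneg)]
    exact ENNReal.ofReal_lt_top
  rw [← hμ] at hle
  obtain ⟨ν, hν⟩ : ∃ ν : Measure (Eu (Fin n)), ν = ENNReal.ofReal a • Measure.map T μ := ⟨_, rfl⟩
  have hνf : IsFiniteMeasure ν := by
    refine ⟨?_⟩
    rw [hν, Measure.smul_apply, smul_eq_mul]
    exact ENNReal.mul_lt_top ENNReal.ofReal_lt_top (measure_lt_top _ _)
  rw [← hν] at hle
  have hlf : IsFiniteMeasure (volume.restrict D) := by
    refine ⟨?_⟩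
    rw [Measure.restrict_apply_univ]
    exact hDf.lt_top
  obtain ⟨g, hg⟩ : ∃ g : Eu (Fin n) → ℝ≥0∞, g = (volume.restrict D).rnDeriv ν := ⟨_, rfl⟩
  have hgm : Measurable g := by rw [hg]; exact Measure.measurable_rnDeriv _ _
  have hg1 : ∀ᵐ y ∂ν, g y ≤ 1 := by
    rw [hg]
    exact Measure.rnDeriv_le_one_of_le hle
  have hwd : ν.withDensity g = volume.restrict D := by
    rw [hg]
    exact Measure.withDensity_rnDeriv_eq _ _ (Measure.absolutelyContinuous_of_le hle)
  obtain ⟨g1, hg1d⟩ : ∃ g1 : Eu (Fin n) → ℝ, ∀ y, g1 y = (min (g y) 1).toReal :=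
    ⟨fun y => (min (g y) 1).toReal, fun y => rfl⟩
  have hg1m : Measurable g1 := by
    have : g1 = fun y => (min (g y) 1).toReal := funext hg1d
    rw [this]
    exact (hgm.min measurable_const).ennreal_toReal
  have hfin1 : ∀ y, min (g y) 1 ≠ ⊤ := fun y => ((min_le_right _ _).trans_lt ENNReal.one_lt_top).ne
  have hg10 : ∀ y, 0 ≤ g1 y := fun y => by rw [hg1d]; exact ENNReal.toReal_nonneg
  have hg11 : ∀ y, g1 y ≤ 1 := fun y => by
    rw [hg1d]
    have := ENNReal.toReal_mono ENNReal.one_ne_top (min_le_right (g y) 1)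
    simpa using this
  have hwd1 : ν.withDensity (fun y => ENNReal.ofReal (g1 y)) = volume.restrict D := by
    rw [← hwd]
    refine withDensity_congr_ae ?_
    filter_upwards [hg1] with y hy
    rw [hg1d, ENNReal.ofReal_toReal (hfin1 y), min_eq_left hy]
  -- the weight
  obtain ⟨w', hw'd⟩ : ∃ w' : Eu (Fin m) → ℝ, ∀ x, w' x = w x * g1 (T x) := ⟨_, fun x => rfl⟩
  have key : ∀ F : Eu (Fin n) → ℝ, Measurable F →
      ∫ y in D, F y = a * ∫ x, F (T x) * w' x := by
    intro F hF
    have hGm : Measurable fun y => g1 y * F y := hg1m.mul hF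
    calc ∫ y in D, F y = ∫ y, F y ∂(ν.withDensity (fun y => ENNReal.ofReal (g1 y))) := by
          rw [hwd1]
      _ = ∫ y, g1 y * F y ∂ν := by
          have hgm2 : Measurable fun y => ENNReal.ofReal (g1 y) :=
            ENNReal.measurable_ofReal.comp hg1m
          rw [integral_withDensity_eq_integral_toReal_smul hgm2 (Eventually.of_forall fun _ =>
              ENNReal.ofReal_lt_top)]
          refine integral_congr_ae (Eventually.of_forall fun y => ?_)
          simp only
          rw [ENNReal.toReal_ofReal (hg10 y), smul_eq_mul]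
      _ = a * ∫ y, g1 y * F y ∂(Measure.map T μ) := by
          rw [hν, integral_smul_measure, ENNReal.toReal_ofReal ha.le, smul_eq_mul]
      _ = a * ∫ x, g1 (T x) * F (T x) ∂μ := by
          rw [integral_map hTm.aemeasurable hGm.aestronglyMeasurable]
      _ = a * ∫ x, F (T x) * w' x := by
          congr 1
          rw [hμ, integral_withDensity_eq_integral_toReal_smul hwm
            (Eventually.of_forall fun _ => ENNReal.ofReal_lt_top)]
          refine integral_congr_ae (Eventually.of_forall fun x => ?_)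
          simp only
          rw [ENNReal.toReal_ofReal (hw.adm.nonneg x), smul_eq_mul, hw'd]
          ring
  have hw'm : Measurable w' := by
    have : w' = fun x => w x * g1 (T x) := funext hw'd
    rw [this]
    exact hw.adm.meas.mul (hg1m.comp hTm)
  have hw'0 : ∀ x, 0 ≤ w' x := fun x => by
    rw [hw'd]
    exact mul_nonneg (hw.adm.nonneg x) (hg10 _)
  have hw'le : ∀ x, w' x ≤ w x := fun x => by
    rw [hw'd]
    exact mul_le_of_le_one_right (hw.adm.nonneg x) (hg11 _)
  have hmass : ∫ x, w' x = (volume D).toReal / a := by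
    have h1 := key (fun _ => 1) measurable_const
    simp only [one_mul] at h1
    rw [setIntegral_const, smul_eq_mul, mul_one] at h1
    rw [eq_div_iff ha.ne', mul_comm, ← h1]
    rfl
  have hw' : Adm w' := by
    refine ⟨hw'0, ?_, ?_, hw'm⟩
    · refine Integrable.mono' hw.adm.int
        ((by fun_prop : Measurable fun x : Eu (Fin m) => 1 + ‖x‖ ^ 2).mul hw'm).aestronglyMeasurable
        (Eventually.of_forall fun x => ?_)
      rw [Real.norm_eq_abs, abs_of_nonneg (mul_nonneg (by positivity) (hw'0 x))]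
      exact mul_le_mul_of_nonneg_left (hw'le x) (by positivity)
    · rw [hmass]
      positivity
  have hcc1 : CcW (κ (v * (1 / 50)) / Real.sqrt (CC v)) (1 / 50) w' := by
    refine down Pool.Agent.Y625.PV.lev hv0 hv1 hw.adm hw.lc hw' hw'le ?_
      (hw.cc (v * (1 / 50)) (by positivity))
    rw [hmass, ← hWd, hv, had]
    rw [le_div_iff₀ (by positivity)]
    calc 199 / 200 / M * W * (M * V / W) = 199 / 200 * V := by field_simp
      _ ≤ _ := hDv
  -- push forward
  have hEW : ∀ F : Eu (Fin n) → ℝ, Measurable F → EW (ind D) F = EW w' fun x => F (T x) := by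
    intro F hF
    unfold EW
    rw [int_ind D hDm, int_ind1 D hDm, key F hF, hmass]
    field_simp
  have hVW : ∀ F : Eu (Fin n) → ℝ, Measurable F → VW (ind D) F = VW w' fun x => F (T x) := by
    intro F hF
    unfold VW
    rw [hEW F hF, hEW (fun x => F x ^ 2) (hF.pow_const 2)]
  have hcc2 : CcW (κ (v * (1 / 50)) / Real.sqrt (CC v)) (1 / 50) (ind D) := by
    intro k hk S s hs hvar u hu hu1 hud
    have hSm : Measurable S := S.continuous_of_finiteDimensional.measurable
    rw [hVW (fun x => u (S x)) (hu.continuous.measurable.comp hSm)]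
    refine hcc1 k (hk.trans hnm) (S.comp T) s hs (fun θ hθ => ?_) u hu hu1 hud
    have h1 := hvar θ hθ
    have h2 : Measurable fun x => ⟪S x, θ⟫_ℝ := hSm.inner measurable_const
    rw [hVW (fun x => ⟪S x, θ⟫_ℝ) h2] at h1
    exact h1
  have hAP := adm_ind P hPc.measurableSet hPc.isBounded hVp
  have hAD := adm_ind D hDm (hPc.isBounded.subset hDP) hDp
  have hcc3 := up (η := 1 / 200) (by norm_num) (by norm_num) hAP hAD (fun x => by
      unfold ind
      by_cases hx : x ∈ D
      · rw [indicator_of_mem hx, indicator_of_mem (hDP hx)]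
      · rw [indicator_of_notMem hx]
        exact indicator_nonneg (fun _ _ => zero_le_one) _) (by
      rw [int_ind1 P hPc.measurableSet, int_ind1 D hDm, ← hVd]
      calc (1 - 1 / 200) * V = 199 / 200 * V := by ring
        _ ≤ _ := hDv) hcc2 (by norm_num)
  have h125 : (1 / 50 : ℝ) + 4 * (1 / 200) = 1 / 25 := by norm_num
  rw [h125] at hcc3
  exact H n P hPc hPv hPi hcc3

/-- affine images of base bodies -/
theorem good_affine (q r B : ℕ) (p : ℝ) (hp : 1 ≤ p) : ∃ κ : ℝ → ℝ, (∀ δ, 0 < δ → 0 < κ δ) ∧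
    ∀ (n m : ℕ) (K : Set (Eu (Fin m))) (S : Eu (Fin m) →ᵃ[ℝ] Eu (Fin n)),
    1 ≤ n → m ≤ n + r → Base q B p K → Function.Surjective S → IsCompact (S '' K) ∧
    Convex ℝ (S '' K) ∧ (interior (S '' K)).Nonempty ∧ Good κ (ind (S '' K)) := by
  obtain ⟨κ, hκ, H⟩ := good_images q r B p hp
  refine ⟨κ, hκ, fun n m K S hn hm hK hS => ?_⟩
  have hTL : ∀ x, S x = S.linear x + S 0 := fun x => by
    have h := S.map_vadd 0 x
    simpa [vadd_eq_add] using h
  have hA : Function.Surjective S.linear := by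
    intro y
    obtain ⟨x, hx⟩ := hS (y + S 0)
    refine ⟨x, ?_⟩
    have h := hTL x
    rw [hx] at h
    exact (add_right_cancel h).symm
  obtain ⟨h1, h2, h3, h4⟩ := H n m K S.linear hn hm hK hA
  have he : S '' K = (fun y => y + S 0) '' (S.linear '' K) := by
    rw [image_image]
    exact image_congr fun x _ => hTL x
  obtain ⟨K', hK'⟩ : ∃ K' : Set (Eu (Fin n)), K' = S.linear '' K := ⟨_, rfl⟩
  have hcp : IsCompact (S '' K) := by
    rw [he]
    exact h1.image (by fun_prop)
  have hcv : Convex ℝ (S '' K) := by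
    rw [he]
    have h := h2.translate (S 0)
    have e : (fun y => y + S 0) = fun y => S 0 + y := funext fun y => add_comm _ _
    rw [e]
    exact h
  have hin : (interior (S '' K)).Nonempty := by
    rw [he]
    have hop : IsOpen ((fun y => y + S 0) '' interior (S.linear '' K)) :=
      (Homeomorph.addRight (S 0)).isOpenMap _ isOpen_interior
    exact (h3.image _).mono (interior_maximal (image_mono interior_subset) hop)
  refine ⟨hcp, hcv, hin, adm_ind _ hcp.measurableSet hcp.isBounded (vol_pos hin), lcn_ind hcv,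
    fun δ hδ => ?_⟩
  refine cc_aff (ContinuousLinearEquiv.refl ℝ (Eu (Fin n))) (S 0) 1 one_pos _
    (ind (S.linear '' K)) ?_ h4.adm (h4.cc δ hδ)
  intro x
  rw [one_mul, ContinuousLinearEquiv.refl_apply, he, ← hK']
  unfold ind
  by_cases hx : x ∈ (fun y => y + S 0) '' K'
  · obtain ⟨y, hy, rfl⟩ := hx
    have h1 : y + S 0 - S 0 = y := add_sub_cancel_right y (S 0)
    rw [indicator_of_mem (mem_image_of_mem _ hy)]
    simp only [h1]
    rw [indicator_of_mem hy]
  · have : x - S 0 ∉ K' := fun h => hx ⟨x - S 0, h, sub_add_cancel x (S 0)⟩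
    rw [indicator_of_notMem hx, indicator_of_notMem this]

/-- **convex bodies dominated by the law of `T X`, `T` affine** -/
theorem dom_aff (κ : ℝ → ℝ) (hκ : ∀ δ, 0 < δ → 0 < κ δ) (M : ℝ) (hM : 1 ≤ M) : ∃ c : ℝ, 0 < c ∧
    ∀ (m n : ℕ) (w : Eu (Fin m) → ℝ) (T : Eu (Fin m) →ᵃ[ℝ] Eu (Fin n)) (P : Set (Eu (Fin n))),
    Good κ w → Function.Surjective T → IsCompact P → Convex ℝ P → (interior P).Nonempty →
    DomS (M * (volume P).toReal / ∫ x, w x) P
      (Measure.map T (volume.withDensity fun x => ENNReal.ofReal (w x))) → Star c (ind P) := by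
  obtain ⟨c, hc, H⟩ := dom_star κ hκ M hM
  refine ⟨c, hc, fun m n w T P hw hT hPc hPv hPi hdom => ?_⟩
  have hTL : ∀ x, T x = T.linear x + T 0 := fun x => by
    have h := T.map_vadd 0 x
    simpa [vadd_eq_add] using h
  have hA : Function.Surjective T.linear := by
    intro y
    obtain ⟨x, hx⟩ := hT (y + T 0)
    refine ⟨x, ?_⟩
    have h := hTL x
    rw [hx] at h
    exact (add_right_cancel h).symm
  have hTm : Measurable T := by
    have : (T : Eu (Fin m) → Eu (Fin n)) = fun x => T.linear x + T 0 := funext hTL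
    rw [this]
    exact (T.linear.continuous_of_finiteDimensional.measurable).add_const _
  obtain ⟨P', hP'⟩ : ∃ P' : Set (Eu (Fin n)), P' = (fun y => y + T 0) ⁻¹' P := ⟨_, rfl⟩
  have himg : (fun y => y + T 0) '' P' = P := by
    rw [hP']
    exact image_preimage_eq _ (Homeomorph.addRight (T 0)).surjective
  have hvol : volume P' = volume P := by
    rw [hP']
    exact measure_preimage_add_right volume (T 0) P
  have hcp : IsCompact P' := by
    rw [hP']
    exact (Homeomorph.addRight (T 0)).isCompact_preimage.2 hPc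
  have hcv : Convex ℝ P' := by
    intro x hx y hy a b ha hb hab
    rw [hP', mem_preimage] at hx hy ⊢
    have h := hPv hx hy ha hb hab
    have e : a • x + b • y + T 0 = a • (x + T 0) + b • (y + T 0) := by
      have : T 0 = (a + b) • T 0 := by rw [hab, one_smul]
      rw [smul_add, smul_add]
      nth_rewrite 1 [this]
      rw [add_smul]
      abel
    rw [e]
    exact h
  have hin : (interior P').Nonempty := by
    have h1 : (fun y => y + T 0) ⁻¹' (interior P) ⊆ interior P' := by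
      rw [hP']
      exact preimage_interior_subset_interior_preimage (by fun_prop)
    obtain ⟨x, hx⟩ := hPi
    exact ⟨x - T 0, h1 (by simpa using hx)⟩
  obtain ⟨E, hE, hEv, hle⟩ := hdom
  obtain ⟨a, ha⟩ : ∃ a : ℝ, a = M * (volume P).toReal / ∫ x, w x := ⟨_, rfl⟩
  rw [← ha] at hle
  obtain ⟨μ, hμ⟩ : ∃ μ : Measure (Eu (Fin m)), μ = volume.withDensity fun x => ENNReal.ofReal (w x) :=
    ⟨_, rfl⟩
  rw [← hμ] at hle
  have hst : Star c (ind P') := by
    refine H m n w T.linear P' hw hA hcp hcv hin ?_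
    rw [hvol, ← ha, ← hμ]
    refine ⟨(fun y => y + T 0) ⁻¹' E, hE.preimage (measurable_add_const _), ?_, ?_⟩
    · rw [measure_preimage_add_right, hvol]
      exact hEv
    · have hfm : Measurable fun y : Eu (Fin n) => y - T 0 := measurable_sub_const _
      have h1 := Measure.map_mono hle hfm
      have h2 : Measure.map (fun y => y - T 0) (ENNReal.ofReal a • Measure.map T μ) =
          ENNReal.ofReal a • Measure.map T.linear μ := by
        rw [Measure.map_smul, Measure.map_map hfm hTm]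
        congr 2
        funext x
        show T x - T 0 = T.linear x
        rw [hTL, add_sub_cancel_right]
      rw [h2] at h1
      refine le_trans (le_of_eq ?_) h1
      have hmp : MeasurePreserving (fun y : Eu (Fin n) => y - T 0) volume volume :=
        measurePreserving_sub_right volume (T 0)
      have hS' : MeasurableSet (P' \ (fun y => y + T 0) ⁻¹' E) :=
        hcp.measurableSet.diff (hE.preimage (measurable_add_const _))
      have h3 := hmp.restrict_preimage hS'
      have h4 : (fun y : Eu (Fin n) => y - T 0) ⁻¹' (P' \ (fun y => y + T 0) ⁻¹' E) = P \ E := by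
        rw [hP']
        ext y
        simp
      rw [h4] at h3
      exact h3.map_eq.symm
  have h := star_trans P' (T 0) (adm_ind P' hcp.measurableSet hcp.isBounded (vol_pos hin)) hst
  rwa [himg] at h

/-- **convex bodies dominated by the law of `T X`, normalised version** -/
theorem dom_final (κ : ℝ → ℝ) (hκ : ∀ δ, 0 < δ → 0 < κ δ) (M : ℝ) : ∃ c : ℝ, 0 < c ∧
    ∀ (m n : ℕ) (w : Eu (Fin m) → ℝ) (T : Eu (Fin m) →ᵃ[ℝ] Eu (Fin n)) (P E : Set (Eu (Fin n))),
    Good κ w → Function.Surjective T → IsCompact P → Convex ℝ P → (interior P).Nonempty →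
    MeasurableSet E → volume E ≤ volume P / 200 →
    (volume P)⁻¹ • volume.restrict (P \ E) ≤
      ENNReal.ofReal M • Measure.map T (Pool.Agent.Y506.RG.pm w) → Star c (ind P) := by
  obtain ⟨c, hc, H⟩ := dom_aff κ hκ (max M 1) (le_max_right _ _)
  refine ⟨c, hc, fun m n w T P E hw hT hPc hPv hPi hE hEv hle => ?_⟩
  refine H m n w T P hw hT hPc hPv hPi ⟨E, hE, hEv, ?_⟩
  have hVp : 0 < volume P := vol_pos hPi
  have hVf : volume P ≠ ⊤ := hPc.measure_lt_top.ne
  have hW := hw.adm.pos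
  have hlw := Pool.Agent.Y506.RG.lint_w hw.adm
  have e : Measure.map T (Pool.Agent.Y506.RG.pm w) = (ENNReal.ofReal (∫ x, w x))⁻¹ •
      Measure.map T (volume.withDensity fun x => ENNReal.ofReal (w x)) := by
    unfold Pool.Agent.Y506.RG.pm
    rw [Measure.map_smul, hlw]
  rw [e] at hle
  obtain ⟨ν, hν⟩ : ∃ ν : Measure (Eu (Fin n)), ν =
    Measure.map T (volume.withDensity fun x => ENNReal.ofReal (w x)) := ⟨_, rfl⟩
  rw [← hν] at hle ⊢
  have h1 : volume.restrict (P \ E) = volume P • ((volume P)⁻¹ • volume.restrict (P \ E)) := by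
    rw [smul_smul, ENNReal.mul_inv_cancel hVp.ne' hVf, one_smul]
  have h2 : ENNReal.ofReal (max M 1 * (volume P).toReal / ∫ x, w x) • ν =
      volume P • (ENNReal.ofReal (max M 1) • ((ENNReal.ofReal (∫ x, w x))⁻¹ • ν)) := by
    rw [smul_smul, smul_smul]
    congr 1
    rw [ENNReal.ofReal_div_of_pos hW, ENNReal.ofReal_mul (by positivity),
      ENNReal.ofReal_toReal hVf, div_eq_mul_inv]
    ring
  rw [h1, h2]
  refine Measure.le_iff.2 fun s hs => ?_
  have h3 := Measure.le_iff.1 hle s hs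
  simp only [Measure.smul_apply, smul_eq_mul] at h3 ⊢
  refine mul_le_mul_right (h3.trans ?_) _
  refine mul_le_mul_left (ENNReal.ofReal_le_ofReal (le_max_left _ _)) _

end Pool.Agent.Q184.NB
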